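import Pool.Agent.W213.MG.Stm

/-! Part MIN of project MG: the automaton is minimal (helper231). -/

set_option autoImplicit false

namespace Pool.Agent.W231.MG

open Pool.Agent.W213.MG

theorem evalFrom_rep (n : ℕ) (f : ℕ → Bool) (k : ℕ) : ∀ (s : Set (Fin n)) (j : Fin n),
    j ∈ (M n f).evalFrom s (List.replicate k (0 : Fin 2)) ↔ ∃ i ∈ s, j.val = i.val + k := by
  induction k with
  | zero =>
    intro s j
    rw [List.replicate_zero, NFA.evalFrom_nil]
    constructor
    · intro h
      exact ⟨j, h, rfl⟩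
    · rintro ⟨i, hi, hij⟩
      have : j = i := Fin.ext hij
      rw [this]
      exact hi
  | succ k ih =>
    intro s j
    rw [List.replicate_succ, NFA.evalFrom_cons, ih]
    constructor
    · rintro ⟨i, hi, hij⟩
      rw [NFA.mem_stepSet] at hi
      obtain ⟨t, ht, hti⟩ := hi
      have h1 : i.val = t.val + 1 := by
        simpa [M] using hti
      exact ⟨t, ht, by omega⟩
    · rintro ⟨t, ht, htj⟩
      refine ⟨⟨t.val + 1, by have := j.2; omega⟩, ?_, by simp only; omega⟩
      rw [NFA.mem_stepSet]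
      refine ⟨t, ht, ?_⟩
      simp [M]

theorem rep_mem (n : ℕ) (f : ℕ → Bool) (hn : 2 ≤ n) (k : ℕ) :
    List.replicate k (0 : Fin 2) ∈ (M n f).accepts ↔ k = n - 1 := by
  rw [NFA.mem_accepts]
  constructor
  · rintro ⟨j, hj, hj'⟩
    rw [evalFrom_rep] at hj'
    obtain ⟨i, hi, hij⟩ := hj'
    have h1 : j.val = n - 1 := hj
    have h2 : i.val = 0 := hi
    omega
  · intro hk
    refine ⟨⟨n - 1, by omega⟩, rfl, ?_⟩
    rw [evalFrom_rep]
    exact ⟨⟨0, by omega⟩, rfl, by simp only; omega⟩

theorem min : MIN := by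
  intro n f hn m hm N hq hN
  have key : ∀ i : Fin n, ∃ q : Fin m,
      q ∈ N.evalFrom N.start (List.replicate i.val (0 : Fin 2)) ∧
      List.replicate (n - 1 - i.val) (0 : Fin 2) ∈ N.acceptsFrom {q} := by
    intro i
    have h1 : List.replicate i.val (0 : Fin 2) ++ List.replicate (n - 1 - i.val) (0 : Fin 2) ∈
        N.acceptsFrom N.start := by
      rw [← NFA.accepts_eq_acceptsFrom_start, hN, ← List.replicate_add, rep_mem n f hn]
      have := i.2
      omega
    rw [NFA.append_mem_acceptsFrom, NFA.mem_acceptsFrom] at h1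
    obtain ⟨s, hs, hs'⟩ := h1
    rw [NFA.mem_evalFrom_iff_exists] at hs'
    obtain ⟨t, ht, hts⟩ := hs'
    refine ⟨t, ht, ?_⟩
    rw [NFA.mem_acceptsFrom]
    exact ⟨s, hs, hts⟩
  choose q hq1 hq2 using key
  have hinj : Function.Injective q := by
    intro i j hij
    have h1 : List.replicate i.val (0 : Fin 2) ++ List.replicate (n - 1 - j.val) (0 : Fin 2) ∈
        N.acceptsFrom N.start := by
      rw [NFA.append_mem_acceptsFrom, NFA.mem_acceptsFrom]
      have h2 := hq2 j
      rw [NFA.mem_acceptsFrom] at h2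
      obtain ⟨s, hs, hs'⟩ := h2
      refine ⟨s, hs, ?_⟩
      rw [NFA.mem_evalFrom_iff_exists]
      refine ⟨q i, hq1 i, ?_⟩
      rw [hij]
      exact hs'
    rw [← NFA.accepts_eq_acceptsFrom_start, hN, ← List.replicate_add, rep_mem n f hn] at h1
    apply Fin.ext
    have := i.2
    have := j.2
    omega
  have hcard := Fintype.card_le_of_injective q hinj
  rw [Fintype.card_fin, Fintype.card_fin] at hcard
  omega

end Pool.Agent.W231.MG
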